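import Mathlib
import Pool.Agent.R350.HH
import Pool.Agent.R350.Inst

/-!
# The dimension of the set of bad combinations of `p`-adic logarithms

Let `ℚ̄` be the field of algebraic numbers in the algebraic closure of `ℚ_p` and `LogForms` the space of
all linear combinations, with algebraic coefficients, of `1` and of all values of the Iwasawa logarithm
at algebraic numbers.  Call a tuple `y_1, …, y_n` generic of degree `D` if `1, y_1, …, y_n` are
linearly independent over `ℚ̄`, and if for ARBITRARY elements `l_1, …, l_s` of `LogForms` (any number of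
them, chosen after `y`) such that `1, y_1, …, y_n, l_1, …, l_s` are linearly independent over `ℚ̄`, no
nonzero polynomial `P (X, Y)` with algebraic coefficients, of degree at most `D` in every `X_i` and of
total degree at most `1` in the `Y_j`, vanishes at `(y, l)`.  By the theorem of Brumer the `l_j` may be
any `p`-adic logarithms of algebraic numbers which are, together with the `y_i`, linearly independent
over `ℚ`.

Let `D ≥ 1`, `c = ((D + 2) (D + 1) ^ (n - 1)) ^ 2` and let `λ_1, …, λ_N` and `z_1, …, z_n` be ARBITRARY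
elements of `LogForms` such that `1, λ_1, …, λ_N` are linearly independent over `ℚ̄`.

1. The set of all `n × N` matrices `b` of algebraic numbers for which the tuple
   `y_i = z_i + ∑_k b_{i k} λ_k` is not generic of degree `D` has dimension at most `(n - 1) N + c`: the
   values of any `s > (n - 1) N + c` linear forms at the points of this set satisfy a nontrivial
   polynomial relation, whose degree is bounded in terms of `n`, `D`, `N`, `s` and `p` only.
2. At most `C H ^ ((n - 1) N + c)` of these matrices have integral entries of absolute value at most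
   `H`, where `C` depends only on `n`, `D`, `N` and `p`.

The proof (`Pool.Agent.R350`): an ultrafilter of matrices such that the linear forms are
algebraically independent gives an ultrapower of the algebraic closure of `ℚ_p` with derivations
which preserve the space spanned by `LogForms`.  A relation of degree `D` is reduced to linear
relations with many linearly independent columns by means of these derivations, and these are
excluded by the `p`-adic strong six exponentials theorem.  The bound for the degree is obtained by a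
second ultraproduct.
-/

set_option autoImplicit false

namespace Pool.Agent.Results.MP_c50dba_nt.BadCombinations

open MvPolynomial

/-- `L` is the Iwasawa `p`-adic logarithm on the algebraic closure of `ℚ_p`. -/
def IsIwasawaLog (p : ℕ) [Fact p.Prime] (L : PadicAlgCl p → PadicAlgCl p) : Prop :=
  (∀ x y : PadicAlgCl p, x ≠ 0 → y ≠ 0 → L (x * y) = L x + L y) ∧
  L ((p : ℕ) : PadicAlgCl p) = 0 ∧
  ∀ z : PadicAlgCl p, ‖z‖ < 1 →
    HasSum (fun n : ℕ => (-1 : PadicAlgCl p) ^ n * z ^ (n + 1) / ((n : PadicAlgCl p) + 1))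
      (L (1 + z))

/-- the linear combinations, with algebraic coefficients, of `1` and of the values of `L` at nonzero
algebraic numbers -/
noncomputable def LogForms {p : ℕ} [Fact p.Prime] (L : PadicAlgCl p → PadicAlgCl p) :
    Submodule (algebraicClosure ℚ (PadicAlgCl p)) (PadicAlgCl p) :=
  Submodule.span (algebraicClosure ℚ (PadicAlgCl p))
    ({1} ∪ {z | ∃ α : PadicAlgCl p, α ≠ 0 ∧ IsAlgebraic ℚ α ∧ z = L α})

/-- `1` and `y` are linearly independent over the field of algebraic numbers, and `y` satisfies no
relation of degree at most `D` in `y` which is linear in arbitrary elements of `LogForms` that are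
linearly independent of `1` and `y` -/
def Generic {p : ℕ} [Fact p.Prime] (L : PadicAlgCl p → PadicAlgCl p) {n : ℕ} (D : ℕ)
    (y : Fin n → PadicAlgCl p) : Prop :=
  LinearIndependent (algebraicClosure ℚ (PadicAlgCl p)) (fun o : Option (Fin n) => o.elim 1 y) ∧
    ∀ (s : ℕ) (l : Fin s → PadicAlgCl p), (∀ j, l j ∈ LogForms L) →
      LinearIndependent (algebraicClosure ℚ (PadicAlgCl p))
        (fun o : Option (Fin n ⊕ Fin s) => o.elim 1 (Sum.elim y l)) →
      ∀ P : MvPolynomial (Fin n ⊕ Fin s) (algebraicClosure ℚ (PadicAlgCl p)),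
        (∀ i, P.degreeOf (Sum.inl i) ≤ D) →
        (∀ β ∈ P.support, ∑ j, β (Sum.inr j) ≤ 1) →
        aeval (Sum.elim y l) P = 0 → P = 0

theorem generic_of_gen1 {p : ℕ} [Fact p.Prime] (L : PadicAlgCl p → PadicAlgCl p) {n D : ℕ}
    {y : Fin n → PadicAlgCl p}
    (h : Pool.Agent.R350.Gen1 (Pool.Agent.W254.PA.LtE (Pool.Agent.W254.PA.logs L)) D y) :
    Generic L D y := h

/-- **Main result.** -/
theorem result (p : ℕ) [Fact p.Prime] (n D N : ℕ) (hD : 1 ≤ D) :
    (∀ s : ℕ, (n - 1) * N + ((D + 2) * (D + 1) ^ (n - 1)) ^ 2 < s → ∃ e : ℕ,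
      ∀ L : PadicAlgCl p → PadicAlgCl p, IsIwasawaLog p L →
      ∀ z : Fin n → PadicAlgCl p, (∀ i, z i ∈ LogForms L) →
      ∀ l : Fin N → PadicAlgCl p, (∀ k, l k ∈ LogForms L) →
      LinearIndependent (algebraicClosure ℚ (PadicAlgCl p))
        (fun o : Option (Fin N) => o.elim 1 l) →
      ∀ f : Fin s → Fin n × Fin N → algebraicClosure ℚ (PadicAlgCl p),
      ∃ G : MvPolynomial (Fin s) (algebraicClosure ℚ (PadicAlgCl p)), G ≠ 0 ∧
        G.totalDegree ≤ e ∧ ∀ b : Fin n × Fin N → algebraicClosure ℚ (PadicAlgCl p),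
          ¬ Generic L D (fun i => z i + ∑ k, b (i, k) • l k) →
          eval (fun q => ∑ x, f q x * b x) G = 0) ∧
    ∃ C : ℕ, ∀ L : PadicAlgCl p → PadicAlgCl p, IsIwasawaLog p L →
      ∀ z : Fin n → PadicAlgCl p, (∀ i, z i ∈ LogForms L) →
      ∀ l : Fin N → PadicAlgCl p, (∀ k, l k ∈ LogForms L) →
      LinearIndependent (algebraicClosure ℚ (PadicAlgCl p))
        (fun o : Option (Fin N) => o.elim 1 l) →
      ∀ H : ℕ, 1 ≤ H → Set.ncard {a : Fin n → Fin N → ℤ | (∀ i k, |a i k| ≤ H) ∧
        ¬ Generic L D (fun i => z i + ∑ k, (a i k : PadicAlgCl p) * l k)} ≤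
        C * H ^ ((n - 1) * N + ((D + 2) * (D + 1) ^ (n - 1)) ^ 2) := by
  refine ⟨fun s hs => ?_, ?_⟩
  · obtain ⟨e, he⟩ := Pool.Agent.R350.gen1_dim (algebraicClosure ℚ (PadicAlgCl p))
      (PadicAlgCl p) D n N s hD hs
    refine ⟨e, fun L hL0 z hz l hl hli f => ?_⟩
    have hL : Pool.Agent.W245.PB.IsIwasawaLog p L := ⟨hL0.1, hL0.2.1, hL0.2.2⟩
    have hS := Pool.Agent.R350.setup_padic hL
    obtain ⟨G, h1, h2, h3⟩ := he (Pool.Agent.W254.PA.LtE (Pool.Agent.W254.PA.logs L)) hS.hyp
      hS.one z hz l hl hli f
    refine ⟨G, h1, h2, fun b hb => ?_⟩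
    by_contra h
    exact hb (generic_of_gen1 L (h3 b h))
  · obtain ⟨C, hC⟩ := Pool.Agent.R350.gen1_count (algebraicClosure ℚ (PadicAlgCl p))
      (PadicAlgCl p) D n N hD
    refine ⟨C, fun L hL0 z hz l hl hli H hH => ?_⟩
    have hL : Pool.Agent.W245.PB.IsIwasawaLog p L := ⟨hL0.1, hL0.2.1, hL0.2.2⟩
    have hS := Pool.Agent.R350.setup_padic hL
    refine le_trans (Set.ncard_le_ncard ?_ ?_) (hC
      (Pool.Agent.W254.PA.LtE (Pool.Agent.W254.PA.logs L)) hS.hyp hS.one z hz l hl hli H hH)
    · rintro a ⟨ha1, ha2⟩
      refine ⟨ha1, fun h => ha2 (generic_of_gen1 L ?_)⟩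
      have he : (fun i => z i + ∑ k, (a i k : PadicAlgCl p) * l k) =
          fun i => z i + ∑ k, (a i k : algebraicClosure ℚ (PadicAlgCl p)) • l k := by
        funext i
        congr 1
      rw [he]
      exact h
    · have h1 : ((Fintype.piFinset fun _ : Fin n => Fintype.piFinset fun _ : Fin N =>
          Finset.Icc (-(H : ℤ)) H : Finset (Fin n → Fin N → ℤ)) :
          Set (Fin n → Fin N → ℤ)).Finite := Finset.finite_toSet _
      refine h1.subset fun A hA => ?_
      rw [Finset.mem_coe, Fintype.mem_piFinset]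
      intro i
      rw [Fintype.mem_piFinset]
      intro j
      rw [Finset.mem_Icc, ← abs_le]
      exact hA.1 i j

end Pool.Agent.Results.MP_c50dba_nt.BadCombinations
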