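import Mathlib
import Pool.Agent.R351.GD.P.All

/-!
# `p`-adic logarithms of integers: no relation of degree at most a power of `log T` for almost all tuples

For all `k`, `q` there is a number `C` such that for all primes `p`, all `δ` and arbitrary `p`-adic numbers
`w_1, …, w_q` (elements of a normed field over `ℚ_p`):

1. For all `T ≥ 1` all but `C p T ^ (k - (δ + 2) ^ (-C))` of the `k`-tuples of positive integers `n_i ≤ T` have the
   property that every relation of total degree at most `δ` over a number field of degree at most `δ` between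
   `w_1, …, w_q` and the `p`-adic logarithms `log_p n_1, …, log_p n_k` is trivial (the polynomial vanishes after the
   substitution of the `w_j`).
2. All but `(k (q + 1) + k (k - 1) / 2) H ^ (k - 1)` of the `H ^ k` tuples `n_i = v_i + g_i p ^ (e_i)`, `1 ≤ g_i ≤ H`,
   have this property, if `p` does not divide the `v_i ≤ p ^ (e_i)` and `(H + 2) ^ ((δ + 2) ^ C) ≤ p ^ (e_i)`.

There is no bound for the heights of the coefficients, and `C` depends only on `k` and `q`.

The starting file `ResidueBoxes` is part 2 for fixed degrees with an exponent `E` in place of `(δ + 2) ^ C`, without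
information on how `E` depends on the degrees. Here the degrees may grow: the first part gives all but
`C p T ^ k exp (- (log T) ^ (1 / 2))` of the tuples for `δ ≤ (log T) ^ (1 / (2 C)) - 2`.

The proof: the exponent in the `p`-adic theorem on the values of G-functions at `p ^ e / v` is polynomial in the number
of functions (`Pool.Agent.R351.GD.gfin_p`); the monomials of degree at most `Δ` in the functions
`∫ z ^ s / ∏ (1 + g_i z)` are a G-system with a constant which is only exponential in `Δ`
(`Pool.Agent.R351.GD.mon_exp`); the elimination of unknown constants by Hilbert functions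
(`Pool.Agent.R351.GD.awh_exp`) multiplies the degree only by a polynomial.
-/

set_option autoImplicit false

namespace Pool.Agent.Results.MP_c50dba_nt.GrowingDegrees

open Module

/-- `L` is an Iwasawa `p`-adic logarithm on the field `A ⊇ ℚ_p` (for example the algebraic closure of `ℚ_p`, or `ℂ_p`). -/
def IsIwasawaLog (p : ℕ) [Fact p.Prime] (A : Type) [NormedField A] [NormedAlgebra ℚ_[p] A] (L : A → A) : Prop :=
  (∀ x y : A, x ≠ 0 → y ≠ 0 → L (x * y) = L x + L y) ∧ L ((p : ℕ) : A) = 0 ∧
  ∀ z : A, ‖z‖ < 1 → HasSum (fun n : ℕ => (-1 : A) ^ n * z ^ (n + 1) / ((n : A) + 1)) (L (1 + z))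

/-- There is a number field `K` of degree at most `δ` and a relation of total degree at most `δ` over `K` between the
numbers `w_j` and `x_i` which does not vanish identically in the `x_i` after the substitution of the `w_j`. -/
def HasRelation {A : Type} [Field A] [CharZero A] {q k : ℕ} (δ : ℕ) (w : Fin q → A) (x : Fin k → A) : Prop :=
  ∃ K : IntermediateField ℚ A, FiniteDimensional ℚ K ∧ finrank ℚ K ≤ δ ∧ ∃ P : MvPolynomial (Fin q ⊕ Fin k) K,
    P.totalDegree ≤ δ ∧ MvPolynomial.aeval (Sum.elim w x) P = 0 ∧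
    MvPolynomial.aeval (Sum.elim (fun j => MvPolynomial.C (w j)) MvPolynomial.X) P ≠ (0 : MvPolynomial (Fin k) A)

open Classical in
/-- **Main result.** -/
theorem result (k q : ℕ) : ∃ C : ℕ,
    ∀ (p : ℕ) [Fact p.Prime] (A : Type) [NormedField A] [NormedAlgebra ℚ_[p] A] [CharZero A] (L : A → A),
    IsIwasawaLog p A L → ∀ (δ : ℕ) (w : Fin q → A),
    (∀ T : ℕ, 1 ≤ T →
      (((Fintype.piFinset fun _ : Fin k => Finset.Icc 1 T).filter fun n =>
        HasRelation δ w (fun i => L ((n i : ℕ) : A))).card : ℝ) ≤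
          C * p * (T : ℝ) ^ ((k : ℝ) - 1 / ((δ : ℝ) + 2) ^ C)) ∧
    (∀ (H : ℕ) (e v : Fin k → ℕ),
      (∀ i, (H + 2) ^ ((δ + 2) ^ C) ≤ p ^ e i ∧ ¬ p ∣ v i ∧ v i ≤ p ^ e i) →
      ((Fintype.piFinset fun _ : Fin k => Finset.Icc 1 H).filter fun g =>
        HasRelation δ w (fun i => L ((v i + g i * p ^ e i : ℕ) : A))).card ≤
          (k * (q + 1) + k.choose 2) * H ^ (k - 1)) := by
  obtain ⟨C₁, h₁⟩ := Pool.Agent.R351.GD.pint_tuples k q
  obtain ⟨E, ⟨C₂, hC₂⟩, h₂⟩ := Pool.Agent.R351.GD.pbox_exp k q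
  refine ⟨C₁ + C₂, fun p _ A _ _ _ L hL δ w => ⟨fun T hT => ?_, fun H e v hev => ?_⟩⟩
  · have h := h₁ δ p A L ⟨hL.1, hL.2.1, hL.2.2⟩ w T hT
    have hsub : ((Fintype.piFinset fun _ : Fin k => Finset.Icc 1 T).filter fun n =>
        HasRelation δ w (fun i => L ((n i : ℕ) : A))) ⊆
        ((Fintype.piFinset fun _ : Fin k => Finset.Icc 1 T).filter fun n =>
          Pool.Agent.Y916.Om.BadW δ δ δ w (fun i => L (n i : A))) := by
      intro n hn
      obtain ⟨hn1, K, hK, hKd, P, hP, hP0, hne⟩ := Finset.mem_filter.1 hn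
      exact Finset.mem_filter.2 ⟨hn1, Pool.Agent.R351.GD.badW_of w _ K hK hKd P hP hP0 hne⟩
    refine (Nat.cast_le.2 (Finset.card_le_card hsub)).trans (h.trans ?_)
    have hT1 : (1 : ℝ) ≤ T := by exact_mod_cast hT
    have hpow : ((δ : ℝ) + 2) ^ C₁ ≤ ((δ : ℝ) + 2) ^ (C₁ + C₂) :=
      pow_le_pow_right₀ (by linarith [(Nat.cast_nonneg δ : (0 : ℝ) ≤ δ)]) (by omega)
    have hpos : 0 < ((δ : ℝ) + 2) ^ C₁ := by positivity
    refine mul_le_mul ?_ (Real.rpow_le_rpow_of_exponent_le hT1 ?_) (by positivity) (by positivity)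
    · refine mul_le_mul_of_nonneg_right ?_ (Nat.cast_nonneg _)
      push_cast
      linarith [(Nat.cast_nonneg C₂ : (0 : ℝ) ≤ C₂)]
    · have := one_div_le_one_div_of_le hpos hpow
      linarith
  · have hE : E δ ≤ (δ + 2) ^ (C₁ + C₂) := (hC₂ δ).trans (Nat.pow_le_pow_right (by omega) (by omega))
    refine (Finset.card_le_card fun g hg => ?_).trans (h₂ δ p A L ⟨hL.1, hL.2.1, hL.2.2⟩ (Fin q) w
      (by rw [Fintype.card_fin]) H e v fun i =>
        ⟨(Nat.pow_le_pow_right (by omega) hE).trans (hev i).1, (hev i).2⟩)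
    obtain ⟨hg1, K, hK, hKd, P, hP, hP0, hne⟩ := Finset.mem_filter.1 hg
    exact Finset.mem_filter.2 ⟨hg1, Pool.Agent.R351.GD.badW_of w _ K hK hKd P hP hP0 hne⟩

end Pool.Agent.Results.MP_c50dba_nt.GrowingDegrees
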