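import Mathlib
import Pool.Agent.R350.GQ
import Pool.Agent.R350.GV

/-!
# Generic `p`-adic logarithms, arbitrary constants and arbitrary `p`-adic logarithms

Let `ℚ̄` be the field of algebraic numbers in the algebraic closure of `ℚ_p` and `LogForms` the space of
all linear combinations, with algebraic coefficients, of `1` and of all values of the Iwasawa logarithm
at algebraic numbers.  Let `W` be a `ℚ̄`-space of dimension at most `m` of arbitrary elements of the
algebraic closure of `ℚ_p`.  There is a space `F ⊆ LogForms` of bounded dimension, which depends only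
on `W`, and `F = ℚ̄` for `W = ℚ̄`, such that the tuple `y` of the `p`-adic logarithms of all but
`C (log log x) ^ C / log x * x ^ n` of the `n`-tuples of positive integers up to `x` has the following
property: the `y_i` are linearly independent over `ℚ̄` modulo `F`, and if `l_1, …, l_s` are
ARBITRARY elements of `LogForms` (for instance `p`-adic logarithms of algebraic numbers; any number of
them, chosen after `y`), linearly independent over `ℚ̄` modulo `F` and the `y_i`, then no nonzero
polynomial `P (X, Y)` with coefficients in `W`, of degree at most `D` in every `X_i` and of total degree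
at most `1` in the `Y_j`, vanishes at `(y, l)`.  The number `C` depends only on `n`, `D`, `m`, and not on
`p`.

For `W = ℚ̄` the conditions of linear independence for `p`-adic logarithms of algebraic numbers are
those over `ℚ`, by Brumer's theorem.
-/

set_option autoImplicit false

namespace Pool.Agent.Results.MP_c50dba_nt.LinearInArbitraryLogs

open Module MvPolynomial

/-- `L` is the Iwasawa `p`-adic logarithm on the algebraic closure of `ℚ_p`. -/
def IsIwasawaLog (p : ℕ) [Fact p.Prime] (L : PadicAlgCl p → PadicAlgCl p) : Prop :=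
  (∀ x y : PadicAlgCl p, x ≠ 0 → y ≠ 0 → L (x * y) = L x + L y) ∧
  L ((p : ℕ) : PadicAlgCl p) = 0 ∧
  ∀ z : PadicAlgCl p, ‖z‖ < 1 →
    HasSum (fun n : ℕ => (-1 : PadicAlgCl p) ^ n * z ^ (n + 1) / ((n : PadicAlgCl p) + 1))
      (L (1 + z))

/-- the linear combinations, with algebraic coefficients, of `1` and of the values of `L` at nonzero
algebraic numbers -/
noncomputable def LogForms {p : ℕ} [Fact p.Prime] (L : PadicAlgCl p → PadicAlgCl p) :
    Submodule (algebraicClosure ℚ (PadicAlgCl p)) (PadicAlgCl p) :=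
  Submodule.span (algebraicClosure ℚ (PadicAlgCl p))
    ({1} ∪ {z | ∃ α : PadicAlgCl p, α ≠ 0 ∧ IsAlgebraic ℚ α ∧ z = L α})

/-- `y` is independent modulo `F` and has no relation with coefficients in `W`, of degree at most `D`
in `y`, which is linear in elements of `LogForms` independent modulo `F` and `y` -/
def NoRelation {p : ℕ} [Fact p.Prime] (L : PadicAlgCl p → PadicAlgCl p)
    (W F : Submodule (algebraicClosure ℚ (PadicAlgCl p)) (PadicAlgCl p)) (D : ℕ) {n : ℕ}
    (y : Fin n → PadicAlgCl p) : Prop :=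
  (∀ c : Fin n → algebraicClosure ℚ (PadicAlgCl p), ∑ i, c i • y i ∈ F → ∀ i, c i = 0) ∧
  ∀ (s : ℕ) (l : Fin s → PadicAlgCl p), (∀ j, l j ∈ LogForms L) →
    (∀ c : Fin s → algebraicClosure ℚ (PadicAlgCl p), ∑ j, c j • l j ∈
      F ⊔ Submodule.span (algebraicClosure ℚ (PadicAlgCl p)) (Set.range y) → ∀ j, c j = 0) →
    ∀ P : MvPolynomial (Fin n ⊕ Fin s) (PadicAlgCl p), (∀ β, P.coeff β ∈ W) →
      (∀ i, P.degreeOf (Sum.inl i) ≤ D) → (∀ β ∈ P.support, ∑ j, β (Sum.inr j) ≤ 1) →
      eval (Sum.elim y l) P = 0 → P = 0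

open Classical in
/-- **Main result.** -/
theorem result (n D m : ℕ) : ∃ C : ℕ, ∀ (p : ℕ) [Fact p.Prime]
    (L : PadicAlgCl p → PadicAlgCl p), IsIwasawaLog p L →
    ∀ W : Submodule (algebraicClosure ℚ (PadicAlgCl p)) (PadicAlgCl p),
    Module.Finite (algebraicClosure ℚ (PadicAlgCl p)) W →
    finrank (algebraicClosure ℚ (PadicAlgCl p)) W ≤ m →
    ∃ F : Submodule (algebraicClosure ℚ (PadicAlgCl p)) (PadicAlgCl p),
      Module.Finite (algebraicClosure ℚ (PadicAlgCl p)) F ∧
      finrank (algebraicClosure ℚ (PadicAlgCl p)) F ≤ C ∧ F ≤ LogForms L ∧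
      (W ≤ Submodule.span (algebraicClosure ℚ (PadicAlgCl p)) {(1 : PadicAlgCl p)} →
        F = Submodule.span (algebraicClosure ℚ (PadicAlgCl p)) {(1 : PadicAlgCl p)}) ∧
      ∀ x : ℕ, 16 ≤ x → (((Fintype.piFinset fun _ : Fin n => Finset.Icc 1 x).filter fun a =>
        ¬ NoRelation L W F D (fun i => L (a i : PadicAlgCl p))).card : ℝ) ≤
          C * Real.log (Real.log x) ^ C / Real.log x * (x : ℝ) ^ n := by
  obtain ⟨C₂, hC₂⟩ := Pool.Agent.R350.rate_lin D n m 0
  refine ⟨C₂ + ((m + 1) * (m + 1 + 0) * (m + 1) + 1), fun p _ L hL0 W hWf hWm => ?_⟩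
  have hL : Pool.Agent.W245.PB.IsIwasawaLog p L := ⟨hL0.1, hL0.2.1, hL0.2.2⟩
  have hS := Pool.Agent.R350.setup_padic hL
  obtain ⟨h1, h2, h3, h4⟩ := Pool.Agent.R350.exSp_bound hS.hyp hS.one W hWm
  refine ⟨Pool.Agent.R350.exSp (Pool.Agent.W254.PA.LtE (Pool.Agent.W254.PA.logs L)) W, h1,
    h2.trans (by omega), h3, h4, fun x hx => ?_⟩
  obtain ⟨-, -, -, -, h5⟩ := hC₂ x hx (algebraicClosure ℚ (PadicAlgCl p)) (PadicAlgCl p) _ _
    hS W hWf hWm
  refine (h5 _ (fun a ha => (Finset.mem_filter.1 ha).1) ?_).trans ?_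
  · intro a ha hgood
    exact (Finset.mem_filter.1 ha).2 hgood
  · have h6 := Pool.Agent.TH681.QC.er_mono (c := C₂)
      (d := C₂ + ((m + 1) * (m + 1 + 0) * (m + 1) + 1)) (by omega) hx
    exact mul_le_mul_of_nonneg_right h6 (by positivity)

end Pool.Agent.Results.MP_c50dba_nt.LinearInArbitraryLogs
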