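import Mathlib
import Pool.Agent.R350.GV

/-!
# Sums of few `p`-adic logarithms, arbitrary constants and arbitrary `p`-adic logarithms

Let `ℚ̄` be the field of algebraic numbers in the algebraic closure of `ℚ_p` and `LogForms` the space of
all linear combinations, with algebraic coefficients, of `1` and of all values of the Iwasawa logarithm
at algebraic numbers.  Let `D ≥ 1` and `r = D ^ 2 + 4 D - 2` (so `r = 3` for `D = 1`).  Let `W` be a
`ℚ̄`-space of dimension at most `m` of arbitrary elements of the algebraic closure of `ℚ_p`.  There is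
a space `F ⊆ LogForms` of bounded dimension, which depends only on `W`, and `F = ℚ̄` for `W = ℚ̄`, such
that for ARBITRARY `ℚ`-linearly independent `p`-adic logarithms `λ_1, …, λ_N` of algebraic numbers and
nonzero rational numbers `c (i, j)` the tuple of the sums of `r` logarithms
`y_i = ∑_j c (i, j) λ_{f (i, j)}` has the following property for all but `C N ^ (n r - δ)` of the
`N ^ (n r)` functions `f`: the `y_i` are linearly independent over `ℚ̄` modulo `F`, and if
`l_1, …, l_s` are ARBITRARY elements of `LogForms` (any number of them, chosen after `y`), linearly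
independent over `ℚ̄` modulo `F` and the `y_i`, then no nonzero polynomial `P (X, Y)` with
coefficients in `W`, of degree at most `D` in every `X_i` and of total degree at most `1` in the `Y_j`,
vanishes at `(y, l)`.  The numbers `C` and `δ > 0` depend only on `n`, `D`, `m`, and not on `p`.

For the logarithms `λ_k` of the first `N` primes (or of the primes of any set) this is a statement
about products of `r` primes, with a power saving.
-/

set_option autoImplicit false

namespace Pool.Agent.Results.MP_c50dba_nt.SumsOfFewLogs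

open Module MvPolynomial

/-- `L` is the Iwasawa `p`-adic logarithm on the algebraic closure of `ℚ_p`. -/
def IsIwasawaLog (p : ℕ) [Fact p.Prime] (L : PadicAlgCl p → PadicAlgCl p) : Prop :=
  (∀ x y : PadicAlgCl p, x ≠ 0 → y ≠ 0 → L (x * y) = L x + L y) ∧
  L ((p : ℕ) : PadicAlgCl p) = 0 ∧
  ∀ z : PadicAlgCl p, ‖z‖ < 1 →
    HasSum (fun n : ℕ => (-1 : PadicAlgCl p) ^ n * z ^ (n + 1) / ((n : PadicAlgCl p) + 1))
      (L (1 + z))

/-- the linear combinations, with algebraic coefficients, of `1` and of the values of `L` at nonzero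
algebraic numbers -/
noncomputable def LogForms {p : ℕ} [Fact p.Prime] (L : PadicAlgCl p → PadicAlgCl p) :
    Submodule (algebraicClosure ℚ (PadicAlgCl p)) (PadicAlgCl p) :=
  Submodule.span (algebraicClosure ℚ (PadicAlgCl p))
    ({1} ∪ {z | ∃ α : PadicAlgCl p, α ≠ 0 ∧ IsAlgebraic ℚ α ∧ z = L α})

/-- `y` is independent modulo `F` and has no relation with coefficients in `W`, of degree at most `D`
in `y`, which is linear in elements of `LogForms` independent modulo `F` and `y` -/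
def NoRelation {p : ℕ} [Fact p.Prime] (L : PadicAlgCl p → PadicAlgCl p)
    (W F : Submodule (algebraicClosure ℚ (PadicAlgCl p)) (PadicAlgCl p)) (D : ℕ) {n : ℕ}
    (y : Fin n → PadicAlgCl p) : Prop :=
  (∀ c : Fin n → algebraicClosure ℚ (PadicAlgCl p), ∑ i, c i • y i ∈ F → ∀ i, c i = 0) ∧
  ∀ (s : ℕ) (l : Fin s → PadicAlgCl p), (∀ j, l j ∈ LogForms L) →
    (∀ c : Fin s → algebraicClosure ℚ (PadicAlgCl p), ∑ j, c j • l j ∈
      F ⊔ Submodule.span (algebraicClosure ℚ (PadicAlgCl p)) (Set.range y) → ∀ j, c j = 0) →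
    ∀ P : MvPolynomial (Fin n ⊕ Fin s) (PadicAlgCl p), (∀ β, P.coeff β ∈ W) →
      (∀ i, P.degreeOf (Sum.inl i) ≤ D) → (∀ β ∈ P.support, ∑ j, β (Sum.inr j) ≤ 1) →
      eval (Sum.elim y l) P = 0 → P = 0

open Classical in
/-- **Main result.** -/
theorem result (n D m : ℕ) (hD : 1 ≤ D) : ∃ δ : ℝ, 0 < δ ∧ ∃ C : ℕ, ∀ (p : ℕ) [Fact p.Prime]
    (L : PadicAlgCl p → PadicAlgCl p), IsIwasawaLog p L →
    ∀ W : Submodule (algebraicClosure ℚ (PadicAlgCl p)) (PadicAlgCl p),
    Module.Finite (algebraicClosure ℚ (PadicAlgCl p)) W →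
    finrank (algebraicClosure ℚ (PadicAlgCl p)) W ≤ m →
    ∃ F : Submodule (algebraicClosure ℚ (PadicAlgCl p)) (PadicAlgCl p),
      Module.Finite (algebraicClosure ℚ (PadicAlgCl p)) F ∧
      finrank (algebraicClosure ℚ (PadicAlgCl p)) F ≤ C ∧ F ≤ LogForms L ∧
      (W ≤ Submodule.span (algebraicClosure ℚ (PadicAlgCl p)) {(1 : PadicAlgCl p)} →
        F = Submodule.span (algebraicClosure ℚ (PadicAlgCl p)) {(1 : PadicAlgCl p)}) ∧
      ∀ (N : ℕ) (l : Fin N → PadicAlgCl p),
        (∀ i, ∃ α : PadicAlgCl p, α ≠ 0 ∧ IsAlgebraic ℚ α ∧ l i = L α) →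
        LinearIndependent ℚ l →
        ∀ c : Fin n → Fin (D ^ 2 + 4 * D - 2) → ℚ, (∀ i j, c i j ≠ 0) →
        ((Finset.univ.filter fun f : Fin n → Fin (D ^ 2 + 4 * D - 2) → Fin N =>
          ¬ NoRelation L W F D (fun i => ∑ j, (c i j : PadicAlgCl p) * l (f i j))).card : ℝ) ≤
          C * (N : ℝ) ^ (((n * (D ^ 2 + 4 * D - 2) : ℕ) : ℝ) - δ) := by
  obtain ⟨E, rfl⟩ : ∃ E, D = E + 1 := ⟨D - 1, by omega⟩
  have hr : (E + 1) ^ 2 + 4 * (E + 1) - 2 = Pool.Agent.R350.nS E := by
    unfold Pool.Agent.R350.nS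
    have : (E + 1) ^ 2 + 4 * (E + 1) = E * E + 6 * E + 3 + 2 := by ring
    rw [this, Nat.add_sub_cancel]
  rw [hr]
  obtain ⟨δ, hδ, K, hK, h⟩ := Pool.Agent.R350.few_lin E n m 0
  refine ⟨δ, hδ, ⌈K⌉₊ + ((m + 1) * (m + 1 + 0) * (m + 1) + 1),
    fun p _ L hL0 W hWf hWm => ?_⟩
  have hL : Pool.Agent.W245.PB.IsIwasawaLog p L := ⟨hL0.1, hL0.2.1, hL0.2.2⟩
  have hS := Pool.Agent.R350.setup_padic hL
  obtain ⟨h1, h2, h3, h4⟩ := Pool.Agent.R350.exSp_bound hS.hyp hS.one W hWm
  refine ⟨Pool.Agent.R350.exSp (Pool.Agent.W254.PA.LtE (Pool.Agent.W254.PA.logs L)) W, h1,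
    h2.trans (by omega), h3, h4, fun N l hl hli c hc => ?_⟩
  refine (Pool.Agent.R350.npow_final (N := N) (a := n * Pool.Agent.R350.nS E) (K := K) hδ hK
    ?_).trans ?_
  rotate_left
  · gcongr
    refine (Nat.le_ceil K).trans ?_
    exact_mod_cast (by omega : ⌈K⌉₊ ≤ ⌈K⌉₊ + ((m + 1) * (m + 1 + 0) * (m + 1) + 1))
  refine h (algebraicClosure ℚ (PadicAlgCl p)) (PadicAlgCl p) _ hS.hyp hS.one W hWf hWm 0
    (fun _ => Submodule.zero_mem _) N l (fun i => Pool.Agent.Y787.log_mem (hl i))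
    (Pool.Agent.R350.li_padic hL _ hl hli)
    (fun i j => algebraMap ℚ (algebraicClosure ℚ (PadicAlgCl p)) (c i j))
    (fun i j => (map_ne_zero _).2 (hc i j)) _ ?_
  intro f hf hgood
  apply (Finset.mem_filter.1 hf).2
  have he : (fun a => (0 : Fin n → PadicAlgCl p) a +
      ∑ j, (algebraMap ℚ (algebraicClosure ℚ (PadicAlgCl p)) (c a j)) • l (f a j)) =
      fun i => ∑ j, (c i j : PadicAlgCl p) * l (f i j) := by
    funext i
    rw [Pi.zero_apply, zero_add]
    refine Finset.sum_congr rfl fun j _ => ?_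
    rw [Algebra.smul_def]
    rfl
  rw [he] at hgood
  exact hgood

end Pool.Agent.Results.MP_c50dba_nt.SumsOfFewLogs
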